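import Pool.Agent.Lib.P8e91ed.Main
import Pool.Agent.Lib.P8e91ed.HardSphere
import Pool.Agent.Lib.P8e91ed.PolyOut
import Pool.Agent.Lib.P8e91s.Main
import Pool.Agent.Lib.P8e91s.Holder

/-!
# MP_8e91ed_lc: the exact threshold for an FPTAS of repulsive Gibbs point processes

Let `w` be a modulus of continuity. If `w(t) ≤ C t^a` for some `a > 0`, then every repulsive
potential of finite range whose Boltzmann factor has modulus `w` has an FPTAS at every rational
activity `λ < e / Δ_φ` (Parts 1 and 2; hard spheres too). Otherwise there are potentials with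
modulus `w` without an FPTAS (Part 3): for every list of oracle algorithms there is an isotropic
potential, Lipschitz off the origin, which defeats all of them within every polynomial number of
oracle calls.
-/

set_option autoImplicit false

open MeasureTheory

noncomputable section

namespace Pool.Agent.Results.MP_8e91ed_lc.ExactThreshold

/-- Euclidean space `R^d`. -/
abbrev Sp (d : ℕ) := EuclideanSpace ℝ (Fin d)

/-- The Boltzmann factor `e^{-φ(x)}`, with `e^{-∞} = 0`. -/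
def boltz {d : ℕ} (φ : Sp d → ENNReal) (x : Sp d) : ℝ :=
  if φ x = ⊤ then 0 else Real.exp (-(φ x).toReal)

/-- The box `Λ_n = [-n, n]^d`. -/
def box (d n : ℕ) : Set (Sp d) := {x | ∀ i, |x i| ≤ (n : ℝ)}

/-- The partition function `Z_{Λ_n}(λ)`; the term `k = 0` of the series is `1`. -/
def Z {d : ℕ} (φ : Sp d → ENNReal) (lam : ℝ) (n : ℕ) : ℝ :=
  ∑' k : ℕ, lam ^ k / (k.factorial : ℝ) * ∫ x in Set.univ.pi (fun _ : Fin k => box d n),
    ∏ i : Fin k, ∏ j : Fin k, if i < j then boltz φ (x i - x j) else 1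

/-- The path `v_0 = 0, v_1, ..., v_k` attached to `v : Fin k → R^d`. -/
def path {d k : ℕ} (v : Fin k → Sp d) (j : ℕ) : Sp d :=
  if h : 0 < j ∧ j ≤ k then v ⟨j - 1, by omega⟩ else 0

/-- The integrals `V_k` of the problem. -/
def V {d : ℕ} (φ : Sp d → ENNReal) (k : ℕ) : ℝ :=
  ∫ v : Fin k → Sp d, ∏ j ∈ Finset.Icc 1 k,
    ((∏ i ∈ Finset.range (j - 1),
        if ‖path v j - path v i‖ < ‖path v i - path v (i + 1)‖
          then boltz φ (path v j - path v i) else 1) *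
      (1 - boltz φ (path v j - path v (j - 1))))

/-- The potential-weighted connective constant `Δ_φ`, the infimum over `k ≥ 1` of `V_k^(1/k)`. -/
def connectiveConstant {d : ℕ} (φ : Sp d → ENNReal) : ℝ :=
  ⨅ k : ℕ, (V φ (k + 1)) ^ (1 / ((k : ℝ) + 1))

/-- The averaged modulus of continuity of `e^{-φ}` is at most `C δ^α`: the oscillation of
`e^{-φ}` on the ball of radius `δ` at `x` is at most `ω x`, and `∫ ω ≤ C δ^α`. -/
def AvgHolder {d : ℕ} (φ : Sp d → ENNReal) (C α : ℝ) : Prop :=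
  ∀ δ : ℝ, 0 < δ → δ ≤ 1 → ∃ ω : Sp d → ℝ, Measurable ω ∧ (∀ x, 0 ≤ ω x) ∧ Integrable ω ∧
    (∀ x y z, ‖y - x‖ < δ → ‖z - x‖ < δ → |boltz φ y - boltz φ z| ≤ ω x) ∧
      ∫ x, ω x ≤ C * δ ^ α

/-- The rational point `x`, as a point of `R^d`. -/
def pt {d : ℕ} (x : Fin d → ℚ) : Sp d := WithLp.toLp 2 (fun i => (x i : ℝ))

/-- `O` answers every query `(x, m)` by a rational within `2^(-m)` of `e^{-φ(x)}`. -/
def IsOracle {d : ℕ} (φ : Sp d → ENNReal) (O : (Fin d → ℚ) × ℕ → ℚ) : Prop :=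
  ∀ s, |(O s : ℝ) - boltz φ (pt s.1)| ≤ (1 / 2 : ℝ) ^ s.2

/-- The answers of `O` at precision `2^(-p)`, at the points of the grid
`{-R, -R + 2^(-B), ..., R}^d`, the `i`-th point being given by the digits of `i` in base
`2 R 2^B + 1`. -/
def answers {d : ℕ} (O : (Fin d → ℚ) × ℕ → ℚ) (R B p : ℕ) : List ℚ :=
  (List.range ((2 * (R * 2 ^ B) + 1) ^ d)).map fun i =>
    O (fun t => ((i / (2 * (R * 2 ^ B) + 1) ^ (t : ℕ) % (2 * (R * 2 ^ B) + 1) : ℕ) : ℚ) / 2 ^ B - R,
      p)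

/-- Self-delimiting code of a list of bits. -/
def dbl (l : List Bool) : List Bool := (l.flatMap fun b => [true, b]) ++ [false]

/-- Code of an input `(n, M, answers)`: `n` and `M` in unary, every answer by its sign and the
binary expansions of its numerator and denominator. -/
def encIn (x : ℕ × ℕ × List ℚ) : List Bool :=
  List.replicate x.1 true ++ false :: (List.replicate x.2.1 true ++ false ::
    x.2.2.flatMap fun a =>
      decide (a.num < 0) :: (dbl (Nat.bits a.num.natAbs) ++ dbl (Nat.bits a.den)))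

/-- Code of an output (numerator, denominator), in binary. -/
def encOut (y : ℕ × ℕ) : List Bool := dbl (Nat.bits y.1) ++ dbl (Nat.bits y.2)

/-- There is an FPTAS for `Z_{Λ_n}(λ)`: a function `F`, computable in polynomial time, which from
`n`, `M` and the answers of any oracle of `φ` at a grid of polynomial size computes a fraction
within `Z / M` of `Z = Z_{Λ_n}(λ)`. -/
def HasFPTAS {d : ℕ} (φ : Sp d → ENNReal) (lam : ℚ) : Prop :=
  ∃ (R κ ν : ℕ) (F : ℕ × ℕ × List ℚ → ℕ × ℕ),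
    Nonempty (Turing.TM2ComputableInPolyTime
      (fun x : {x : ℕ × ℕ × List ℚ // 1 ≤ x.1 ∧ 1 ≤ x.2.1} => encIn x.1) encOut
      (fun x => F x.1)) ∧
    ∀ O, IsOracle φ O → ∀ n M : ℕ, 1 ≤ n → 1 ≤ M →
      0 < (F (n, M, answers O R (κ * (Nat.log 2 (n + M) + 1))
        (ν * (Nat.log 2 (n + M) + 1)))).2 ∧
      |((F (n, M, answers O R (κ * (Nat.log 2 (n + M) + 1))
          (ν * (Nat.log 2 (n + M) + 1)))).1 : ℝ) /
        (F (n, M, answers O R (κ * (Nat.log 2 (n + M) + 1))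
          (ν * (Nat.log 2 (n + M) + 1)))).2 - Z φ lam n| ≤ 1 / M * Z φ lam n

/-- `w` is a modulus of continuity on `(0, 1]`: positive, nondecreasing and subadditive. -/
def IsModulus (w : ℝ → ℝ) : Prop :=
  (∀ t, 0 < t → t ≤ 1 → 0 < w t) ∧ (∀ s t, 0 < s → s ≤ t → t ≤ 1 → w s ≤ w t) ∧
    ∀ s t, 0 < s → 0 < t → s + t ≤ 1 → w (s + t) ≤ w s + w t

/-- The Boltzmann factor `e^{-φ}` has modulus of continuity `w` at distances at most `1`. -/
def HasModulus {d : ℕ} (φ : Sp d → ENNReal) (w : ℝ → ℝ) : Prop :=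
  ∀ x y, x ≠ y → ‖x - y‖ ≤ 1 → |boltz φ x - boltz φ y| ≤ w ‖x - y‖

/-- The procedure `A` (input: `ε` and an oracle) approximates `Z_{Λ_n}(λ)` to every relative error
`ε`, on the oracle `O`, with an output determined by at most `c ⌈1/ε⌉^c` answers of the oracle. -/
def ApproxWithin {d : ℕ} (A : ℚ → ((Fin d → ℚ) × ℕ → ℚ) → Option ℚ) (O : (Fin d → ℚ) × ℕ → ℚ)
    (φ : Sp d → ENNReal) (lam : ℚ) (n c : ℕ) : Prop :=
  ∀ ε : ℚ, 0 < ε → ε < 1 → ∃ (z : ℚ) (S : Finset ((Fin d → ℚ) × ℕ)), S.card ≤ c * ⌈1 / ε⌉₊ ^ c ∧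
    (∀ O' : (Fin d → ℚ) × ℕ → ℚ, (∀ s ∈ S, O' s = O s) → A ε O' = some z) ∧
    |(z : ℝ) - Z φ lam n| ≤ (ε : ℝ) * Z φ lam n

theorem pt_eq (d R B i : ℕ) :
    pt (fun t : Fin d => ((i / (2 * (R * 2 ^ B) + 1) ^ (t : ℕ) %
      (2 * (R * 2 ^ B) + 1) : ℕ) : ℚ) / 2 ^ B - R) =
      Pool.Agent.Lib.P8e91ed.queryPt d R B i := by
  unfold pt Pool.Agent.Lib.P8e91ed.queryPt Pool.Agent.Lib.P8e91ed.gridPt
  congr 1
  funext t
  push_cast
  rw [sub_div]
  congr 1
  field_simp

theorem valid_answers {d : ℕ} {φ : Sp d → ENNReal} {O : (Fin d → ℚ) × ℕ → ℚ}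
    (hO : IsOracle φ O) (R B p : ℕ) :
    Pool.Agent.Lib.P8e91ed.Valid (boltz φ) R B p (answers O R B p) := by
  refine ⟨by simp [answers], ?_⟩
  intro i hi
  have h1 : (answers O R B p).getD i 0 =
      O (fun t => ((i / (2 * (R * 2 ^ B) + 1) ^ (t : ℕ) % (2 * (R * 2 ^ B) + 1) : ℕ) : ℚ) /
        2 ^ B - R, p) := by
    unfold answers
    rw [List.getD_eq_getElem _ _ (by simpa using hi)]
    simp
  rw [h1, ← pt_eq]
  have h2 := hO (fun t => ((i / (2 * (R * 2 ^ B) + 1) ^ (t : ℕ) %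
    (2 * (R * 2 ^ B) + 1) : ℕ) : ℚ) / 2 ^ B - R, p)
  rw [one_div_pow] at h2
  exact h2

theorem isPot_boltz {d : ℕ} {φ : Sp d → ENNReal} {r : ℝ} (hm : Measurable φ)
    (he : ∀ x, φ (-x) = φ x) (hr : ∀ x, r < ‖x‖ → φ x = 0) :
    Pool.Agent.Lib.P8e91ed.IsPot (boltz φ) r where
  meas := by
    unfold boltz
    refine Measurable.ite (hm (measurableSet_singleton ⊤)) measurable_const ?_
    exact Real.measurable_exp.comp hm.ennreal_toReal.neg
  nonneg x := by
    unfold boltz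
    split_ifs
    · exact le_rfl
    · positivity
  le_one x := by
    unfold boltz
    split_ifs
    · exact zero_le_one
    · exact Real.exp_le_one_iff.2 (by simp)
  even x := by
    unfold boltz
    rw [he]
  far x hx := by
    unfold boltz
    rw [hr x hx]
    simp

theorem boltz_hard {d : ℕ} (ρ : ℝ) :
    boltz (fun x : Sp d => if ‖x‖ < ρ then (⊤ : ENNReal) else 0) =
      Pool.Agent.Lib.P8e91ed.hs ρ := by
  funext x
  unfold boltz Pool.Agent.Lib.P8e91ed.hs
  by_cases h : ‖x‖ < ρ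
  · simp [h]
  · simp [h]

theorem boltz_ofReal {d : ℕ} {φ : Sp d → ℝ} (h0 : ∀ x, 0 ≤ φ x) (x : Sp d) :
    boltz (fun x => ENNReal.ofReal (φ x)) x = Real.exp (-(φ x)) := by
  unfold boltz
  rw [if_neg ENNReal.ofReal_ne_top, ENNReal.toReal_ofReal (h0 x)]

theorem Z_ofReal {d : ℕ} {φ : Sp d → ℝ} (h0 : ∀ x, 0 ≤ φ x) (lam : ℝ) (n : ℕ) :
    Z (fun x => ENNReal.ofReal (φ x)) lam n =
      Pool.Agent.Lib.P8e91ed.NoOracle.partitionFunction φ
        (Pool.Agent.Lib.P8e91ed.NoOracle.box d n) lam := by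
  unfold Z Pool.Agent.Lib.P8e91ed.NoOracle.partitionFunction
  refine tsum_congr fun k => ?_
  congr 1
  refine integral_congr_ae (Filter.Eventually.of_forall fun x => ?_)
  simp only [boltz_ofReal h0]
  unfold Pool.Agent.Lib.P8e91ed.NoOracle.energy
  rw [← Finset.sum_neg_distrib, Real.exp_sum]
  refine Finset.prod_congr rfl fun i _ => ?_
  rw [← Finset.sum_neg_distrib, Real.exp_sum]
  refine Finset.prod_congr rfl fun j _ => ?_
  split_ifs
  · rfl
  · simp

theorem connective_ofReal {d : ℕ} {φ : Sp d → ℝ} (h0 : ∀ x, 0 ≤ φ x) :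
    connectiveConstant (fun x => ENNReal.ofReal (φ x)) =
      Pool.Agent.Lib.P8e91ed.NoOracle.connectiveConstant φ := by
  unfold connectiveConstant Pool.Agent.Lib.P8e91ed.NoOracle.connectiveConstant
  refine iInf_congr fun k => ?_
  congr 1
  unfold V Pool.Agent.Lib.P8e91ed.NoOracle.walkIntegral
  refine integral_congr_ae (Filter.Eventually.of_forall fun v => ?_)
  simp only [boltz_ofReal h0]
  refine Finset.prod_congr rfl fun j _ => ?_
  congr 1
  rw [← Finset.sum_neg_distrib, Real.exp_sum]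
  refine Finset.prod_congr rfl fun i _ => ?_
  have e : ∀ i, Pool.Agent.Lib.P8e91ed.NoOracle.path v i = path v i := fun _ => rfl
  simp only [e]
  split_ifs
  · rfl
  · simp

/-- **Theorem.** Part 1: if `w` is a modulus and `w(t) ≤ C t^α`, then all repulsive potentials of
finite range with modulus `w` have an FPTAS at all rational `0 ≤ λ < e / Δ_φ`; the same holds if
only the averaged modulus is bounded by a power, in particular for hard spheres. Part 2: if `w` is a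
modulus which is not bounded by any `C t^a`, then for every rounding rule of the oracle and every
countable family of oracle procedures there is a continuous isotropic potential with modulus `w`,
with `Δ_φ` as small as we please and Lipschitz Boltzmann factor off the origin, such that at every
rational activity and every box all the procedures fail within every polynomial budget of oracle
answers. -/
theorem result (d : ℕ) (hd : 1 ≤ d) :
    ((∀ (φ : Sp d → ENNReal) (r C α : ℝ), Measurable φ → (∀ x, φ (-x) = φ x) →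
      (∀ x, r < ‖x‖ → φ x = 0) → 0 < α →
      ((∀ x y, ‖x - y‖ ≤ 1 → |boltz φ x - boltz φ y| ≤ C * ‖x - y‖ ^ α) ∨ AvgHolder φ C α) →
      ∀ lam : ℚ, 0 ≤ lam → (lam : ℝ) * connectiveConstant φ < Real.exp 1 → HasFPTAS φ lam) ∧
      (∀ ρ : ℝ, 0 < ρ → ∃ C : ℝ,
        AvgHolder (fun x : Sp d => if ‖x‖ < ρ then (⊤ : ENNReal) else 0) C 1)) ∧
    (∀ w : ℝ → ℝ, IsModulus w →
      (∀ C a : ℝ, 0 < a → ∃ t, 0 < t ∧ t ≤ 1 ∧ C * t ^ a < w t) →
      ∀ (Λ : ℝ) (rnd : ℝ → (Fin d → ℚ) × ℕ → ℚ),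
      (∀ t s, |(rnd t s : ℝ) - t| ≤ (1 / 2 : ℝ) ^ s.2) →
      ∀ A : ℕ → ℚ → ℕ → ℚ → ((Fin d → ℚ) × ℕ → ℚ) → Option ℚ,
      ∃ φ : Sp d → ENNReal, Continuous φ ∧ (∀ x, φ x ≠ ⊤) ∧ (∀ x y, ‖x‖ = ‖y‖ → φ x = φ y) ∧
        (∀ x, 1 / 2 < ‖x‖ → φ x = 0) ∧ HasModulus φ w ∧
        (∀ ρ, 0 < ρ → ∃ L : ℝ, ∀ x y, ρ ≤ ‖x‖ → ρ ≤ ‖y‖ →
          |boltz φ x - boltz φ y| ≤ L * ‖x - y‖) ∧
        Λ * connectiveConstant φ < Real.exp 1 ∧
        ∀ (i : ℕ) (lam : ℚ) (c n : ℕ), 0 < lam → 1 ≤ n →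
          ¬ ApproxWithin (A i lam n) (fun s => rnd (boltz φ (pt s.1)) s) φ lam n c) := by
  refine ⟨⟨?_, ?_⟩, ?_⟩
  · intro φ r C α hm he hr hα hreg lam h0 hlam
    have hq := isPot_boltz hm he hr
    obtain ⟨C', hreg'⟩ : ∃ C' : ℝ, AvgHolder φ C' α := by
      rcases hreg with h | h
      · exact Pool.Agent.Lib.P8e91s.holderAvg_of_modulus hα hq.far h
      · exact ⟨C, h⟩
    obtain ⟨a, ha⟩ : ∃ a : ℕ, lam.num = a := Int.eq_ofNat_of_zero_le (Rat.num_nonneg.2 h0)
    have hlam' : (lam : ℝ) = (a : ℝ) / (lam.den : ℝ) := by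
      rw [Rat.cast_def, ha]
      simp
    obtain ⟨R, D, A, K1, K2, K3, K4, h⟩ := Pool.Agent.Lib.P8e91ed.scheme_correct hd hq hα hreg'
      a lam.den lam.den_pos (by rw [← hlam']; exact hlam)
    refine ⟨R, K2, K3, (⟨d, R, a, lam.den, D, A, K1, K2, K3, K4⟩ :
      Pool.Agent.Lib.P8e91ed.Consts).out, Pool.Agent.Lib.P8e91ed.poly_out _, ?_⟩
    intro O hO n M hn hM
    have h1 := h n M _ hn hM (valid_answers hO R _ _)
    rw [← hlam'] at h1
    exact h1
  · intro ρ hρ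
    obtain ⟨C, hC⟩ := Pool.Agent.Lib.P8e91ed.holderAvg_hs hd hρ
    refine ⟨C, ?_⟩
    unfold AvgHolder
    rw [boltz_hard]
    exact hC
  · intro w hw hslow Λ rnd _ A
    have hw' : Pool.Agent.Lib.P8e91s.Modulus w := ⟨hw.1, hw.2.1, hw.2.2⟩
    obtain ⟨φ, h1, h3, h2, h4, h5, h6, h7, h8⟩ := Pool.Agent.Lib.P8e91s.sharp_modulus d hd w
      hw' (fun c ε => c * ⌈1 / ε⌉₊ ^ c)
      (fun c => Pool.Agent.Lib.P8e91s.tooSmall_poly hw' hslow c) Λ rnd
      (fun i lam n ε O => A i lam n ε O)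
    refine ⟨fun x => ENNReal.ofReal (φ x), ENNReal.continuous_ofReal.comp h1,
      fun x => ENNReal.ofReal_ne_top, ?_, ?_, ?_, ?_, ?_, ?_⟩
    · intro x y hxy
      simp only [h2 x y hxy]
    · intro x hx
      simp only [h4 x hx, ENNReal.ofReal_zero]
    · intro x y hne hxy
      rw [boltz_ofReal h3, boltz_ofReal h3]
      exact h5 x y hne hxy
    · intro ρ hρ
      obtain ⟨L, hL⟩ := h6 ρ hρ
      refine ⟨L, fun x y hx hy => ?_⟩
      rw [boltz_ofReal h3, boltz_ofReal h3]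
      exact hL x y hx hy
    · rw [connective_ofReal h3]
      exact h7
    · intro i lam c n hl hn hcon
      refine h8 i lam c n hl hn ?_
      intro ε hε0 hε1
      obtain ⟨z, S, hS, hrun, hz⟩ := hcon ε hε0 hε1
      rw [Z_ofReal h3] at hz
      refine ⟨z, S, hS, fun O' hO' => hrun O' fun s hs => ?_, hz⟩
      rw [hO' s hs]
      show _ = rnd (boltz (fun x => ENNReal.ofReal (φ x)) (pt s.1)) s
      rw [boltz_ofReal h3]
      rfl

end Pool.Agent.Results.MP_8e91ed_lc.ExactThreshold
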