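import Pool.Agent.Lib.P8e91ed.Main
import Pool.Agent.Lib.P8e91ed.HardSphere
import Pool.Agent.Lib.P8e91ed.NoOracle
import Pool.Agent.Lib.P8e91ed.PolyOut

/-!
# MP_8e91ed_lc: deterministic approximation of repulsive Gibbs point process partition functions

Full answer to Q1. Part 1: for every repulsive finite range potential `φ` whose Boltzmann factor
`e^{-φ}` has an averaged modulus of continuity bounded by a power (in particular for hard spheres,
Part 2), there is an FPTAS at every rational activity `λ < e / Δ_φ`. Part 3: no deterministic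
oracle algorithm exists, whatever its running time, for all the potentials for which `e^{-φ}` is
only continuous.
-/

set_option autoImplicit false

open MeasureTheory

noncomputable section

namespace Pool.Agent.Results.MP_8e91ed_lc.RepulsiveFPTAS

/-- Euclidean space `R^d`. -/
abbrev Sp (d : ℕ) := EuclideanSpace ℝ (Fin d)

/-- The Boltzmann factor `e^{-φ(x)}`, with `e^{-∞} = 0`. -/
def boltz {d : ℕ} (φ : Sp d → ENNReal) (x : Sp d) : ℝ :=
  if φ x = ⊤ then 0 else Real.exp (-(φ x).toReal)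

/-- The box `Λ_n = [-n, n]^d`. -/
def box (d n : ℕ) : Set (Sp d) := {x | ∀ i, |x i| ≤ (n : ℝ)}

/-- The partition function `Z_{Λ_n}(λ)`; the term `k = 0` of the series is `1`. -/
def Z {d : ℕ} (φ : Sp d → ENNReal) (lam : ℝ) (n : ℕ) : ℝ :=
  ∑' k : ℕ, lam ^ k / (k.factorial : ℝ) * ∫ x in Set.univ.pi (fun _ : Fin k => box d n),
    ∏ i : Fin k, ∏ j : Fin k, if i < j then boltz φ (x i - x j) else 1

/-- The path `v_0 = 0, v_1, ..., v_k` attached to `v : Fin k → R^d`. -/
def path {d k : ℕ} (v : Fin k → Sp d) (j : ℕ) : Sp d :=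
  if h : 0 < j ∧ j ≤ k then v ⟨j - 1, by omega⟩ else 0

/-- The integrals `V_k` of the problem. -/
def V {d : ℕ} (φ : Sp d → ENNReal) (k : ℕ) : ℝ :=
  ∫ v : Fin k → Sp d, ∏ j ∈ Finset.Icc 1 k,
    ((∏ i ∈ Finset.range (j - 1),
        if ‖path v j - path v i‖ < ‖path v i - path v (i + 1)‖
          then boltz φ (path v j - path v i) else 1) *
      (1 - boltz φ (path v j - path v (j - 1))))

/-- The potential-weighted connective constant `Δ_φ`, the infimum over `k ≥ 1` of `V_k^(1/k)`. -/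
def connectiveConstant {d : ℕ} (φ : Sp d → ENNReal) : ℝ :=
  ⨅ k : ℕ, (V φ (k + 1)) ^ (1 / ((k : ℝ) + 1))

/-- The averaged modulus of continuity of `e^{-φ}` is at most `C δ^α`: the oscillation of
`e^{-φ}` on the ball of radius `δ` at `x` is at most `ω x`, and `∫ ω ≤ C δ^α`. -/
def AvgHolder {d : ℕ} (φ : Sp d → ENNReal) (C α : ℝ) : Prop :=
  ∀ δ : ℝ, 0 < δ → δ ≤ 1 → ∃ ω : Sp d → ℝ, Measurable ω ∧ (∀ x, 0 ≤ ω x) ∧ Integrable ω ∧
    (∀ x y z, ‖y - x‖ < δ → ‖z - x‖ < δ → |boltz φ y - boltz φ z| ≤ ω x) ∧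
      ∫ x, ω x ≤ C * δ ^ α

/-- The rational point `x`, as a point of `R^d`. -/
def pt {d : ℕ} (x : Fin d → ℚ) : Sp d := WithLp.toLp 2 (fun i => (x i : ℝ))

/-- `O` answers every query `(x, m)` by a rational within `2^(-m)` of `e^{-φ(x)}`. -/
def IsOracle {d : ℕ} (φ : Sp d → ENNReal) (O : (Fin d → ℚ) × ℕ → ℚ) : Prop :=
  ∀ s, |(O s : ℝ) - boltz φ (pt s.1)| ≤ (1 / 2 : ℝ) ^ s.2

/-- The answers of `O` at precision `2^(-p)`, at the points of the grid
`{-R, -R + 2^(-B), ..., R}^d`, the `i`-th point being given by the digits of `i` in base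
`2 R 2^B + 1`. -/
def answers {d : ℕ} (O : (Fin d → ℚ) × ℕ → ℚ) (R B p : ℕ) : List ℚ :=
  (List.range ((2 * (R * 2 ^ B) + 1) ^ d)).map fun i =>
    O (fun t => ((i / (2 * (R * 2 ^ B) + 1) ^ (t : ℕ) % (2 * (R * 2 ^ B) + 1) : ℕ) : ℚ) / 2 ^ B - R,
      p)

/-- Self-delimiting code of a list of bits. -/
def dbl (l : List Bool) : List Bool := (l.flatMap fun b => [true, b]) ++ [false]

/-- Code of an input `(n, M, answers)`: `n` and `M` in unary, every answer by its sign and the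
binary expansions of its numerator and denominator. -/
def encIn (x : ℕ × ℕ × List ℚ) : List Bool :=
  List.replicate x.1 true ++ false :: (List.replicate x.2.1 true ++ false ::
    x.2.2.flatMap fun a =>
      decide (a.num < 0) :: (dbl (Nat.bits a.num.natAbs) ++ dbl (Nat.bits a.den)))

/-- Code of an output (numerator, denominator), in binary. -/
def encOut (y : ℕ × ℕ) : List Bool := dbl (Nat.bits y.1) ++ dbl (Nat.bits y.2)

theorem pt_eq (d R B i : ℕ) :
    pt (fun t : Fin d => ((i / (2 * (R * 2 ^ B) + 1) ^ (t : ℕ) %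
      (2 * (R * 2 ^ B) + 1) : ℕ) : ℚ) / 2 ^ B - R) =
      Pool.Agent.Lib.P8e91ed.queryPt d R B i := by
  unfold pt Pool.Agent.Lib.P8e91ed.queryPt Pool.Agent.Lib.P8e91ed.gridPt
  congr 1
  funext t
  push_cast
  rw [sub_div]
  congr 1
  field_simp

theorem valid_answers {d : ℕ} {φ : Sp d → ENNReal} {O : (Fin d → ℚ) × ℕ → ℚ}
    (hO : IsOracle φ O) (R B p : ℕ) :
    Pool.Agent.Lib.P8e91ed.Valid (boltz φ) R B p (answers O R B p) := by
  refine ⟨by simp [answers], ?_⟩
  intro i hi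
  have h1 : (answers O R B p).getD i 0 =
      O (fun t => ((i / (2 * (R * 2 ^ B) + 1) ^ (t : ℕ) % (2 * (R * 2 ^ B) + 1) : ℕ) : ℚ) /
        2 ^ B - R, p) := by
    unfold answers
    rw [List.getD_eq_getElem _ _ (by simpa using hi)]
    simp
  rw [h1, ← pt_eq]
  have h2 := hO (fun t => ((i / (2 * (R * 2 ^ B) + 1) ^ (t : ℕ) %
    (2 * (R * 2 ^ B) + 1) : ℕ) : ℚ) / 2 ^ B - R, p)
  rw [one_div_pow] at h2
  exact h2

theorem isPot_boltz {d : ℕ} {φ : Sp d → ENNReal} {r : ℝ} (hm : Measurable φ)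
    (he : ∀ x, φ (-x) = φ x) (hr : ∀ x, r < ‖x‖ → φ x = 0) :
    Pool.Agent.Lib.P8e91ed.IsPot (boltz φ) r where
  meas := by
    unfold boltz
    refine Measurable.ite (hm (measurableSet_singleton ⊤)) measurable_const ?_
    exact Real.measurable_exp.comp hm.ennreal_toReal.neg
  nonneg x := by
    unfold boltz
    split_ifs
    · exact le_rfl
    · positivity
  le_one x := by
    unfold boltz
    split_ifs
    · exact zero_le_one
    · exact Real.exp_le_one_iff.2 (by simp)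
  even x := by
    unfold boltz
    rw [he]
  far x hx := by
    unfold boltz
    rw [hr x hx]
    simp

theorem boltz_hard {d : ℕ} (ρ : ℝ) :
    boltz (fun x : Sp d => if ‖x‖ < ρ then (⊤ : ENNReal) else 0) =
      Pool.Agent.Lib.P8e91ed.hs ρ := by
  funext x
  unfold boltz Pool.Agent.Lib.P8e91ed.hs
  by_cases h : ‖x‖ < ρ
  · simp [h]
  · simp [h]

theorem boltz_ofReal {d : ℕ} {φ : Sp d → ℝ} (h0 : ∀ x, 0 ≤ φ x) (x : Sp d) :
    boltz (fun x => ENNReal.ofReal (φ x)) x = Real.exp (-(φ x)) := by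
  unfold boltz
  rw [if_neg ENNReal.ofReal_ne_top, ENNReal.toReal_ofReal (h0 x)]

theorem Z_ofReal {d : ℕ} {φ : Sp d → ℝ} (h0 : ∀ x, 0 ≤ φ x) (lam : ℝ) (n : ℕ) :
    Z (fun x => ENNReal.ofReal (φ x)) lam n =
      Pool.Agent.Lib.P8e91ed.NoOracle.partitionFunction φ
        (Pool.Agent.Lib.P8e91ed.NoOracle.box d n) lam := by
  unfold Z Pool.Agent.Lib.P8e91ed.NoOracle.partitionFunction
  refine tsum_congr fun k => ?_
  congr 1
  refine integral_congr_ae (Filter.Eventually.of_forall fun x => ?_)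
  simp only [boltz_ofReal h0]
  unfold Pool.Agent.Lib.P8e91ed.NoOracle.energy
  rw [← Finset.sum_neg_distrib, Real.exp_sum]
  refine Finset.prod_congr rfl fun i _ => ?_
  rw [← Finset.sum_neg_distrib, Real.exp_sum]
  refine Finset.prod_congr rfl fun j _ => ?_
  split_ifs
  · rfl
  · simp

theorem connective_ofReal {d : ℕ} {φ : Sp d → ℝ} (h0 : ∀ x, 0 ≤ φ x) :
    connectiveConstant (fun x => ENNReal.ofReal (φ x)) =
      Pool.Agent.Lib.P8e91ed.NoOracle.connectiveConstant φ := by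
  unfold connectiveConstant Pool.Agent.Lib.P8e91ed.NoOracle.connectiveConstant
  refine iInf_congr fun k => ?_
  congr 1
  unfold V Pool.Agent.Lib.P8e91ed.NoOracle.walkIntegral
  refine integral_congr_ae (Filter.Eventually.of_forall fun v => ?_)
  simp only [boltz_ofReal h0]
  refine Finset.prod_congr rfl fun j _ => ?_
  congr 1
  rw [← Finset.sum_neg_distrib, Real.exp_sum]
  refine Finset.prod_congr rfl fun i _ => ?_
  have e : ∀ i, Pool.Agent.Lib.P8e91ed.NoOracle.path v i = path v i := fun _ => rfl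
  simp only [e]
  split_ifs
  · rfl
  · simp

/-- **Theorem.** Part 1: an FPTAS for all repulsive potentials of finite range with an averaged
modulus of continuity bounded by a power, for all rational `0 ≤ λ < e / Δ_φ`. Part 2: hard spheres
satisfy the hypothesis. Part 3: for every `λ > 0`, every rounding rule of the oracle and every
countable family of oracle algorithms with finite use, of arbitrary running time, there is a
continuous isotropic potential with `λ < e / Δ_φ` for which all the algorithms fail. -/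
theorem result (d : ℕ) (hd : 1 ≤ d) :
    (∀ (φ : Sp d → ENNReal) (r C α : ℝ), Measurable φ → (∀ x, φ (-x) = φ x) →
      (∀ x, r < ‖x‖ → φ x = 0) → 0 < α → AvgHolder φ C α →
      ∀ lam : ℚ, 0 ≤ lam → (lam : ℝ) * connectiveConstant φ < Real.exp 1 →
      ∃ (R κ ν : ℕ) (F : ℕ × ℕ × List ℚ → ℕ × ℕ),
        Nonempty (Turing.TM2ComputableInPolyTime
          (fun x : {x : ℕ × ℕ × List ℚ // 1 ≤ x.1 ∧ 1 ≤ x.2.1} => encIn x.1) encOut
          (fun x => F x.1)) ∧
        ∀ O, IsOracle φ O → ∀ n M : ℕ, 1 ≤ n → 1 ≤ M →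
          0 < (F (n, M, answers O R (κ * (Nat.log 2 (n + M) + 1))
            (ν * (Nat.log 2 (n + M) + 1)))).2 ∧
          |((F (n, M, answers O R (κ * (Nat.log 2 (n + M) + 1))
              (ν * (Nat.log 2 (n + M) + 1)))).1 : ℝ) /
            (F (n, M, answers O R (κ * (Nat.log 2 (n + M) + 1))
              (ν * (Nat.log 2 (n + M) + 1)))).2 - Z φ lam n| ≤ 1 / M * Z φ lam n) ∧
    (∀ ρ : ℝ, 0 < ρ → ∃ C : ℝ,
      AvgHolder (fun x : Sp d => if ‖x‖ < ρ then (⊤ : ENNReal) else 0) C 1) ∧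
    (∀ (lam : ℚ), 0 < lam → ∀ (rnd : ℝ → (Fin d → ℚ) × ℕ → ℚ),
      (∀ t s, |(rnd t s : ℝ) - t| ≤ (1 / 2 : ℝ) ^ s.2) →
      ∀ A : ℕ → ℕ → ℚ → ((Fin d → ℚ) × ℕ → ℚ) → Option ℚ,
      (∀ i n ε O z, A i n ε O = some z → ∃ S : Finset ((Fin d → ℚ) × ℕ),
        ∀ O' : (Fin d → ℚ) × ℕ → ℚ, (∀ s ∈ S, O' s = O s) → A i n ε O' = some z) →
      ∃ φ : Sp d → ENNReal, Continuous φ ∧ (∀ x, φ x ≠ ⊤) ∧ (∀ x y, ‖x‖ = ‖y‖ → φ x = φ y) ∧
        (∀ x, 1 / 2 < ‖x‖ → φ x = 0) ∧ (lam : ℝ) * connectiveConstant φ < Real.exp 1 ∧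
        ∀ i n, 1 ≤ n → ∃ ε : ℚ, 0 < ε ∧ ε < 1 ∧
          ∀ z : ℚ, A i n ε (fun s => rnd (boltz φ (pt s.1)) s) = some z →
            (ε : ℝ) * Z φ lam n < |(z : ℝ) - Z φ lam n|) := by
  refine ⟨?_, ?_, ?_⟩
  · intro φ r C α hm he hr hα hreg lam h0 hlam
    have hq := isPot_boltz hm he hr
    obtain ⟨a, ha⟩ : ∃ a : ℕ, lam.num = a := Int.eq_ofNat_of_zero_le (Rat.num_nonneg.2 h0)
    have hlam' : (lam : ℝ) = (a : ℝ) / (lam.den : ℝ) := by
      rw [Rat.cast_def, ha]
      simp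
    obtain ⟨R, D, A, K1, K2, K3, K4, h⟩ := Pool.Agent.Lib.P8e91ed.scheme_correct hd hq hα hreg
      a lam.den lam.den_pos (by rw [← hlam']; exact hlam)
    refine ⟨R, K2, K3, (⟨d, R, a, lam.den, D, A, K1, K2, K3, K4⟩ :
      Pool.Agent.Lib.P8e91ed.Consts).out, Pool.Agent.Lib.P8e91ed.poly_out _, ?_⟩
    intro O hO n M hn hM
    have h1 := h n M _ hn hM (valid_answers hO R _ _)
    rw [← hlam'] at h1
    exact h1
  · intro ρ hρ
    obtain ⟨C, hC⟩ := Pool.Agent.Lib.P8e91ed.holderAvg_hs hd hρ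
    refine ⟨C, ?_⟩
    unfold AvgHolder
    rw [boltz_hard]
    exact hC
  · intro lam hlam rnd hrnd A hA
    obtain ⟨φ, h1, h2, h3, h4, h5, h6⟩ := Pool.Agent.Lib.P8e91ed.NoOracle.no_oracle d hd lam hlam
      rnd hrnd A hA
    refine ⟨fun x => ENNReal.ofReal (φ x), ENNReal.continuous_ofReal.comp h1,
      fun x => ENNReal.ofReal_ne_top, ?_, ?_, ?_, ?_⟩
    · intro x y hxy
      simp only [h2 x y hxy]
    · intro x hx
      simp only [h4 x hx, ENNReal.ofReal_zero]
    · rw [connective_ofReal h3]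
      exact h5
    · intro i n hn
      have h7 := h6 i n hn
      unfold Pool.Agent.Lib.P8e91ed.NoOracle.Approximates at h7
      push Not at h7
      obtain ⟨ε, he0, he1, h8⟩ := h7
      refine ⟨ε, he0, he1, ?_⟩
      intro z hz
      rw [Z_ofReal h3]
      refine h8 z ?_
      rw [← hz]
      congr 1
      funext s
      rw [boltz_ofReal h3]
      rfl

end Pool.Agent.Results.MP_8e91ed_lc.RepulsiveFPTAS
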